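import Pool.Agent.Run7.h47.V.Iface2

/-! Piece LAT of the project VI (MP_1906c1_mp): the self-energy on the lattice. -/

set_option autoImplicit false

open scoped BigOperators Matrix Topology
open MeasureTheory ProbabilityTheory Filter

namespace Pool.Agent.Run7.h524.VI

open Pool.Agent.Run7.h47.V
open Pool.Agent.W788.MFP.Four Pool.Agent.W788.MFP.Form Pool.Agent.W788.BK
open Pool.Agent.W788.MFP.Gm (Γ)
open Pool.Agent.W792.LL Pool.Agent.W792.WA Pool.Agent.N659.HB Pool.Agent.N896.KS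
open Pool.Agent.N916.HB (mS toC_mS X_ne sc1)

noncomputable section

variable {d : ℕ}

/-! ### the symbol of the adjacency operator -/

theorem adjm_apply (p : UnitAddTorus (Fin d)) :
    adjm d p = ∑ i, 2 * (fourier 1 (p i) : ℂ).re := by
  have h : adjm d p = 2 * (d : ℝ) - ∑ i, (2 - 2 * (fourier 1 (p i) : ℂ).re) := rfl
  rw [h, Finset.sum_sub_distrib, Finset.sum_const, Finset.card_univ, Fintype.card_fin]
  rw [nsmul_eq_mul]
  ring

theorem adjm_pt {L : ℕ} [NeZero L] (k : T d L) : adjm d (pt k) = adj k := by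
  rw [adjm_apply]
  unfold adj
  refine Finset.sum_congr rfl fun i _ => ?_
  congr 2
  unfold pt
  rw [fourier_coe_apply, ZMod.stdAddChar_apply, ZMod.toCircle_apply]
  congr 1
  push_cast
  ring

/-! ### change of variables -/

theorem map_gauss {ι : Type} [Fintype ι] (c : ℝ) (V0 : Measure ℝ) [IsProbabilityMeasure V0]
    (h : (Pool.Agent.W788.MFP.Gm.γ).map (c * ·) = V0) :
    (Γ ι).map (fun V y => c * V y) = Measure.pi fun _ : ι => V0 := by
  have h1 := Measure.pi_map_pi (μ := fun _ : ι => Pool.Agent.W788.MFP.Gm.γ)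
    (f := fun _ : ι => fun t : ℝ => c * t)
    (hf := fun _ => (measurable_const_mul c).aemeasurable)
  rw [h1]
  congr 1
  funext i
  exact h

theorem gauss_scale (c : ℝ) :
    (Pool.Agent.W788.MFP.Gm.γ).map (c * ·) = gaussianReal 0 ⟨c ^ 2, sq_nonneg _⟩ := by
  unfold Pool.Agent.W788.MFP.Gm.γ
  rw [gaussianReal_map_const_mul]
  congr 1
  · ring
  · rw [mul_one]
    rfl

theorem RT_scale {L : ℕ} [NeZero L] {c : ℝ} (hc : 0 < c) {X : T d L → ℂ} (hX : Dis c X)
    (γ x : ℝ) (hγ : 0 < γ) (V : T d L → ℝ) :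
    RT (fun q => (γ : ℂ) * X q) (fun y => γ * x * V y) = (γ : ℂ)⁻¹ • RX X x V := by
  have hγ0 : (γ : ℂ) ≠ 0 := by exact_mod_cast hγ.ne'
  unfold RT
  have e1 : CV (fun q => (γ : ℂ) * X q) + Matrix.diagonal (fun y => ((γ * x * V y : ℝ) : ℂ)) =
      (γ : ℂ) • HX X x V := by
    unfold HX
    rw [CV_smul, smul_add]
    congr 1
    ext a b
    simp only [Matrix.smul_apply, Matrix.diagonal_apply, smul_eq_mul]
    split_ifs
    · push_cast; ring
    · ring
  rw [e1]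
  apply Matrix.inv_eq_right_inv
  rw [smul_mul_smul_comm, mul_inv_cancel₀ hγ0, one_smul, HX_mul hc hX]

theorem GT_scale {L : ℕ} [NeZero L] {c : ℝ} (hc : 0 < c) {X : T d L → ℂ} (hX : Dis c X)
    (γ x : ℝ) (hγ : 0 < γ) (hx : 0 < x) (k : T d L) :
    GT (gaussianReal 0 ⟨(γ * x) ^ 2, sq_nonneg _⟩) (fun q => (γ : ℂ) * X q) k =
      (γ : ℂ)⁻¹ * GX X x k := by
  have hmap := map_gauss (ι := T d L) (γ * x) _ (gauss_scale (γ * x))
  have hne : γ * x ≠ 0 := by positivity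
  have hemb : MeasurableEmbedding (fun (V : T d L → ℝ) y => γ * x * V y) := by
    have : (fun (V : T d L → ℝ) y => γ * x * V y) = fun V => (γ * x) • V := by
      funext V y; rfl
    rw [this]
    exact measurableEmbedding_const_smul₀ hne
  unfold GT GX
  have e1 : ∀ a b : T d L, (∫ v, RT (fun q => (γ : ℂ) * X q) v a b
      ∂(Measure.pi fun _ : T d L => gaussianReal 0 ⟨(γ * x) ^ 2, sq_nonneg _⟩)) =
      (γ : ℂ)⁻¹ * ∫ V, RX X x V a b ∂(Γ (T d L)) := by
    intro a b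
    rw [← hmap, hemb.integral_map, ← integral_const_mul]
    congr 1
    funext V
    rw [RT_scale hc hX γ x hγ V, Matrix.smul_apply, smul_eq_mul]
  simp only [e1]
  rw [mul_left_comm]
  congr 1
  rw [Finset.mul_sum]
  refine Finset.sum_congr rfl fun a _ => ?_
  rw [Finset.mul_sum]
  refine Finset.sum_congr rfl fun b _ => ?_
  ring

/-! ### density of the points -/

theorem exists_seq (p : UnitAddTorus (Fin d)) (ℓ : ℕ) (hℓ : 1 ≤ ℓ)
    [hne : ∀ n : ℕ, NeZero ((n + 1) * ℓ)] :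
    ∃ k : (n : ℕ) → T d ((n + 1) * ℓ), Tendsto (fun n => pt (k n)) atTop (𝓝 p) := by
  have h1 : ∀ i, ∃ t : ℝ, 0 ≤ t ∧ t < 1 ∧ ((t : ℝ) : UnitAddCircle) = p i := by
    intro i
    obtain ⟨t, ht, ht'⟩ := AddCircle.eq_coe_Ico (p i)
    exact ⟨t, ht.1, ht.2, ht'⟩
  choose t ht0 ht1 htp using h1
  refine ⟨fun n i => ((⌊t i * (((n + 1) * ℓ : ℕ) : ℝ)⌋₊ : ℕ) : ZMod ((n + 1) * ℓ)), ?_⟩
  rw [tendsto_pi_nhds]
  intro i
  have hval : ∀ n : ℕ, ((⌊t i * (((n + 1) * ℓ : ℕ) : ℝ)⌋₊ : ℕ) : ZMod ((n + 1) * ℓ)).val =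
      ⌊t i * (((n + 1) * ℓ : ℕ) : ℝ)⌋₊ := by
    intro n
    apply ZMod.val_natCast_of_lt
    have hL : (0 : ℝ) < (((n + 1) * ℓ : ℕ) : ℝ) := by
      have : 0 < (n + 1) * ℓ := by positivity
      exact_mod_cast this
    rw [Nat.floor_lt (mul_nonneg (ht0 i) hL.le)]
    nlinarith [ht1 i]
  have e1 : ∀ n : ℕ, pt (fun i => ((⌊t i * (((n + 1) * ℓ : ℕ) : ℝ)⌋₊ : ℕ) :
      ZMod ((n + 1) * ℓ))) i = (((⌊t i * (((n + 1) * ℓ : ℕ) : ℝ)⌋₊ : ℝ) /
        (((n + 1) * ℓ : ℕ) : ℝ) : ℝ) : UnitAddCircle) := by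
    intro n
    unfold pt
    rw [hval]
  simp only [e1]
  rw [← htp i]
  have hlim : Tendsto (fun n : ℕ => (⌊t i * (((n + 1) * ℓ : ℕ) : ℝ)⌋₊ : ℝ) /
      (((n + 1) * ℓ : ℕ) : ℝ)) atTop (𝓝 (t i)) := by
    have hL : Tendsto (fun n : ℕ => (((n + 1) * ℓ : ℕ) : ℝ)) atTop atTop := by
      apply tendsto_natCast_atTop_atTop.comp
      refine tendsto_atTop_mono (fun n => ?_) tendsto_id
      simp only [id]
      nlinarith
    exact (tendsto_nat_floor_mul_div_atTop (ht0 i)).comp hL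
  exact ((AddCircle.continuous_mk' (1 : ℝ)).tendsto _).comp hlim

/-! ### the main proof -/

theorem t_LAT : S_PSI → S_CX → S_TOR → S_TRF → S_LAT := by
  intro hP hCX hTOR hTRF d hd a ha had
  obtain ⟨C_S, c_S, C₂, hCS, hcS, hcC, hC₂, htor⟩ := hTOR d hd a ha had
  refine ⟨C_S, c_S, C₂, hCS, hcS, hcC, hC₂, ?_⟩
  intro κ hκ hκ' C_Y c_t c₃ hCY hct hc₃
  obtain ⟨s, hs, hs1, htor⟩ := htor κ hκ hκ' C_Y c_t c₃ hCY hct hc₃
  refine ⟨s, hs, hs1, ?_⟩
  intro x hx hxs γ hγ E τ X hE hτ hτ1 hX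
  obtain ⟨ℓ, n₀, hℓ, htor⟩ := htor x hx hxs
  -- dissipation
  obtain ⟨k₀, -, hk₀⟩ := isCompact_univ.exists_isMinOn Set.univ_nonempty
    (f := fun k : UnitAddTorus (Fin d) => -(X k).im)
    ((Complex.continuous_im.comp X.continuous).neg.continuousOn)
  have hk₀' : ∀ k, -(X k₀).im ≤ -(X k).im := fun k => hk₀ (Set.mem_univ k)
  set c : ℝ := -(X k₀).im with hcdef
  have hc : 0 < c := by
    refine lt_of_lt_of_le ?_ (hX.dis k₀)
    have : 0 < x ^ (2 + 2 * κ) := Real.rpow_pos_of_pos hx _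
    positivity
  set Y : C(UnitAddTorus (Fin d), ℂ) := (γ : ℂ) • X with hYdef
  have hYk : ∀ k, Y k = (γ : ℂ) * X k := fun k => rfl
  have hYim : ∀ k, (Y k).im ≤ -(γ * c) := by
    intro k
    rw [hYk, Complex.im_ofReal_mul]
    have := hk₀' k
    nlinarith
  have hγc : 0 < γ * c := by positivity
  obtain ⟨h0, h⟩ := X_ne hγc hYim
  have hm : ‖mS Y h‖ < 1 := by
    obtain ⟨q, hq0, hq1, hq⟩ := hCX.2.2.1 0 ‖Y‖ (γ * c) hγc
    refine lt_of_le_of_lt ((ContinuousMap.norm_le _ hq0).2 fun k => ?_) hq1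
    have := hq (Y k) 0 (Y.norm_coe_le_norm k) (hYim k) (by simp)
    have e : mS Y h k = cayx (Y k) 0 := by simp [mS, cayx]
    rw [e]
    exact this
  set ν : Measure ℝ := gaussianReal 0 ⟨(γ * x) ^ 2, sq_nonneg _⟩ with hν
  have hgam : (γ : ℂ) ≠ 0 := by exact_mod_cast hγ.ne'
  -- the symbols on the tori
  have hDis : ∀ (L : ℕ) [NeZero L], Dis c (fun q : T d L => X (pt (-q))) := by
    intro L _ q
    have := hk₀' (pt (-q))
    linarith
  have hCL : ∀ (L : ℕ) [NeZero L], CL x E τ (C_Y * x ^ (2 + 2 * κ)) (c_t * x ^ (2 + 2 * κ)) c₃ C₂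
      (fun q : T d L => X (pt (-q))) := by
    intro L _
    have hadj : ∀ q : T d L, adjm d (pt (-q)) = adj q := fun q => by rw [adjm_pt, adj_neg]
    constructor
    · intro q
      have := hX.near (pt (-q))
      rw [hadj] at this
      exact this
    · intro q
      exact hX.im (pt (-q))
    · intro q
      have := hX.dis (pt (-q))
      rw [hadj] at this
      exact this
    · rcases hX.shell with h1 | h1
      · left; exact h1
      · right
        intro q hq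
        have := h1 (pt (-q))
        rw [hadj] at this
        exact this hq
  have htrf := hTRF ν d (γ * c) Y h (by omega) hγc hYim
  -- the properties at a point
  have key : ∀ p : UnitAddTorus (Fin d), GS ν Y h p ≠ 0 ∧
      ‖1 / GS ν Y h p - Y p‖ ≤ γ * (C_S * x ^ 2) ∧
      (1 / GS ν Y h p - Y p).im ≤ -(γ * (c_S * x ^ 2)) := by
    intro p
    have hne : ∀ n : ℕ, NeZero ((n + 1) * ℓ) := fun n =>
      ⟨Nat.mul_ne_zero (Nat.succ_ne_zero n) (by omega)⟩
    obtain ⟨k, hk⟩ := exists_seq p ℓ hℓ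
    set F : ℕ → ℂ := fun n =>
      GT ν (fun q : T d ((n + 1) * ℓ) => Y (pt (-q))) (-(k n)) with hF
    have hFG : ∀ n, F n = (γ : ℂ)⁻¹ * GX (fun q : T d ((n + 1) * ℓ) => X (pt (-q))) x (-(k n)) :=
      fun n => GT_scale hc (hDis ((n + 1) * ℓ)) γ x hγ hx (-(k n))
    have hlimG : Tendsto (fun n => GS ν Y h (pt (k n))) atTop (𝓝 (GS ν Y h p)) :=
      ((GS ν Y h).continuous.tendsto p).comp hk
    have hlimY : Tendsto (fun n => Y (pt (k n))) atTop (𝓝 (Y p)) :=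
      (Y.continuous.tendsto p).comp hk
    have hdiff : Tendsto (fun n => GS ν Y h (pt (k n)) - F n) atTop (𝓝 0) := by
      rw [Metric.tendsto_atTop]
      intro ε hε
      obtain ⟨L₀, hL₀⟩ := htrf (ε / 2) (by positivity)
      refine ⟨L₀, fun n hn => ?_⟩
      have h1 : L₀ ≤ (n + 1) * ℓ := by nlinarith
      have h2 := hL₀ ((n + 1) * ℓ) h1 (k n)
      rw [dist_zero_right]
      exact lt_of_le_of_lt h2 (by linarith)
    have hlimF : Tendsto F atTop (𝓝 (GS ν Y h p)) := by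
      have := hlimG.sub hdiff
      simpa using this
    have hbd : ∀ n, n₀ ≤ n → γ⁻¹ * (2 * (‖X‖ + C_S))⁻¹ ≤ ‖F n‖ ∧
        ‖1 / F n - Y (pt (k n))‖ ≤ γ * (C_S * x ^ 2) ∧
        (1 / F n - Y (pt (k n))).im ≤ -(γ * (c_S * x ^ 2)) := by
      intro n hn
      obtain ⟨b1, b2, b3⟩ := htor (n + 1) ((n + 1) * ℓ) (by omega) rfl E τ
        (fun q : T d ((n + 1) * ℓ) => X (pt (-q))) hE hτ hτ1 (hCL _) (-(k n))
      simp only [neg_neg] at b1 b2 b3
      have e1 : 1 / F n - Y (pt (k n)) = (γ : ℂ) *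
          (1 / GX (fun q : T d ((n + 1) * ℓ) => X (pt (-q))) x (-(k n)) - X (pt (k n))) := by
        rw [hFG, hYk, mul_sub, one_div, one_div, mul_inv, inv_inv]
      refine ⟨?_, ?_, ?_⟩
      · rw [hFG, norm_mul, norm_inv, Complex.norm_real, Real.norm_of_nonneg hγ.le]
        refine mul_le_mul_of_nonneg_left (le_trans ?_ b1) (inv_nonneg.2 hγ.le)
        apply inv_anti₀ (by positivity)
        have := X.norm_coe_le_norm (pt (k n))
        linarith
      · rw [e1, norm_mul, Complex.norm_real, Real.norm_of_nonneg hγ.le]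
        exact mul_le_mul_of_nonneg_left b2 hγ.le
      · rw [e1, Complex.im_ofReal_mul]
        nlinarith
    have hG0 : γ⁻¹ * (2 * (‖X‖ + C_S))⁻¹ ≤ ‖GS ν Y h p‖ :=
      ge_of_tendsto hlimF.norm (eventually_atTop.2 ⟨n₀, fun n hn => (hbd n hn).1⟩)
    have hGne : GS ν Y h p ≠ 0 := by
      rw [← norm_pos_iff]
      refine lt_of_lt_of_le ?_ hG0
      positivity
    have hlimE : Tendsto (fun n => 1 / F n - Y (pt (k n))) atTop
        (𝓝 (1 / GS ν Y h p - Y p)) := by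
      have := (hlimF.inv₀ hGne).sub hlimY
      simpa only [one_div] using this
    refine ⟨hGne, ?_, ?_⟩
    · exact le_of_tendsto hlimE.norm (eventually_atTop.2 ⟨n₀, fun n hn => (hbd n hn).2.1⟩)
    · have him : Tendsto (fun n => (1 / F n - Y (pt (k n))).im) atTop
          (𝓝 (1 / GS ν Y h p - Y p).im) := (Complex.continuous_im.tendsto _).comp hlimE
      exact le_of_tendsto him (eventually_atTop.2 ⟨n₀, fun n hn => (hbd n hn).2.2⟩)
  have hps := (hP ν d ‖mS Y h‖ (mS Y h) (mS Y h) (norm_nonneg _) hm le_rfl le_rfl).1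
  refine ⟨⟨fun k => 1 / GS ν Y h k - Y k, ?_⟩, fun k => ⟨?_, ?_, ?_⟩⟩
  · exact (continuous_const.div (GS ν Y h).continuous fun k => (key k).1).sub Y.continuous
  · have e0 : (toC fun k => cayx ((γ : ℂ) * X k) 0) = mS Y h := toC_mS Y h
    rw [e0]
    obtain ⟨a1, a2, a3, -⟩ := hps k
    have hG := (key k).1
    have eG : GS ν Y h k = 1 / (2 * Complex.I) *
        ((1 - (1 - mS Y h k) * csym ν (mS Y h) k) * (mS Y h k - 1)) := by
      simp [GS]
    rw [a2] at a3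
    rw [eG] at hG
    have := sc1 (Y k) (csym ν (mS Y h) k) (mS Y h k) (h k) rfl a1 hG a3
    rw [a2]
    have h2 := this.2
    rw [← eG] at h2
    exact h2
  · exact (key k).2.1
  · exact (key k).2.2

end

end Pool.Agent.Run7.h524.VI
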