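import Pool.Agent.Run7.h47.V.Iface

/-! Piece TOR of the project VI (MP_1906c1_mp): the self-energy on the torus. -/

set_option autoImplicit false

open scoped BigOperators Matrix
open MeasureTheory

namespace Pool.Agent.Run7.h524.VI

open Pool.Agent.Run7.h47.V
open Pool.Agent.W788.MFP.Four Pool.Agent.W788.MFP.Form Pool.Agent.W788.BK
open Pool.Agent.W788.MFP.Dos
open Pool.Agent.W788.MFP.Gm (Γ)

noncomputable section

/-- from the bound of the product of variance and mean square to the bounds of the remainder -/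
theorem rem_bd {P ρ X l x ε : ℝ} (hx : 0 < x) (hρ : 0 ≤ ρ) (hX : 0 ≤ X) (hl : 0 ≤ l)
    (hε : 0 ≤ ε) (h1 : ρ ^ 2 ≤ P) (h2 : P * (X ^ 2 + (x ^ 2 * l) ^ 2) ≤ ε ^ 2) :
    (x ^ 2 * ρ) * X ≤ x ^ 2 * ε ∧ (x ^ 2 * ρ) * l ≤ ε := by
  have h3 : (ρ * X) ^ 2 ≤ ε ^ 2 := by
    refine le_trans ?_ h2
    have : ρ ^ 2 * X ^ 2 ≤ P * (X ^ 2 + (x ^ 2 * l) ^ 2) := by
      apply mul_le_mul h1 _ (by positivity) (le_trans (by positivity) h1)
      nlinarith [sq_nonneg (x ^ 2 * l)]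
    rw [mul_pow]; exact this
  have h4 : (ρ * (x ^ 2 * l)) ^ 2 ≤ ε ^ 2 := by
    refine le_trans ?_ h2
    have : ρ ^ 2 * (x ^ 2 * l) ^ 2 ≤ P * (X ^ 2 + (x ^ 2 * l) ^ 2) := by
      apply mul_le_mul h1 _ (by positivity) (le_trans (by positivity) h1)
      nlinarith [sq_nonneg X]
    rw [mul_pow]; exact this
  have h5 : ρ * X ≤ ε := (sq_le_sq₀ (by positivity) hε).1 h3
  have h6 : ρ * (x ^ 2 * l) ≤ ε := (sq_le_sq₀ (by positivity) hε).1 h4
  constructor
  · have := mul_le_mul_of_nonneg_left h5 (by positivity : 0 ≤ x ^ 2)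
    linarith
  · linarith

/-- the equation for the mean of the resolvent -/
theorem eqn (hIBP : S_IBP) {d L : ℕ} [NeZero L] (X : T d L → ℂ) (x c ε : ℝ) (hx : 0 < x)
    (hx1 : x ≤ 1) (hc : 0 < c) (hX : Dis c X) (hε : 0 ≤ ε)
    (hB : ∀ k, VX X x * NX X x k * (‖X k‖ ^ 2 + (x ^ 2 * Real.log (1 / x)) ^ 2) ≤ ε ^ 2) :
    ∃ r : T d L → ℂ, (∀ k, GX X x k = (1 + r k) / (X k - x ^ 2 * mX X x)) ∧
      (∀ k, ‖r k‖ * ‖X k‖ ≤ x ^ 2 * ε) ∧ (∀ k, ‖r k‖ * Real.log (1 / x) ≤ ε) ∧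
      (∀ k, X k - x ^ 2 * mX X x ≠ 0) ∧
      mX X x = (NN d L : ℂ)⁻¹ * ∑ k, (1 + r k) / (X k - x ^ 2 * mX X x) := by
  obtain ⟨-, h2, h3, h4, h5, h6⟩ := hIBP d L X c x hc hX
  choose r0 hr0 hr0' using h2
  have hne : ∀ k, X k - x ^ 2 * mX X x ≠ 0 := by
    intro k h
    have h7 : (X k - x ^ 2 * mX X x).im = 0 := by rw [h]; rfl
    have h8 : ((x : ℂ) ^ 2 * mX X x).im = x ^ 2 * (mX X x).im := by
      rw [← Complex.ofReal_pow, Complex.im_ofReal_mul]
    rw [Complex.sub_im, h8] at h7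
    have h9 := hX k
    nlinarith [mul_nonneg (sq_nonneg x) h4]
  have hG : ∀ k, GX X x k = (1 + x ^ 2 * r0 k) / (X k - x ^ 2 * mX X x) := by
    intro k
    rw [eq_div_iff (hne k)]
    linear_combination hr0 k
  have hl : 0 ≤ Real.log (1 / x) := Real.log_nonneg (by
    rw [le_div_iff₀ hx]; linarith)
  have hb : ∀ k, (x ^ 2 * ‖r0 k‖) * ‖X k‖ ≤ x ^ 2 * ε ∧
      (x ^ 2 * ‖r0 k‖) * Real.log (1 / x) ≤ ε := fun k =>
    rem_bd hx (norm_nonneg _) (norm_nonneg _) hl hε (hr0' k) (hB k)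
  have hn : ∀ k, ‖(x : ℂ) ^ 2 * r0 k‖ = x ^ 2 * ‖r0 k‖ := by
    intro k
    rw [norm_mul, norm_pow, Complex.norm_real, Real.norm_eq_abs, abs_of_pos hx]
  refine ⟨fun k => x ^ 2 * r0 k, hG, fun k => ?_, fun k => ?_, hne, ?_⟩
  · rw [hn]; exact (hb k).1
  · rw [hn]; exact (hb k).2
  · calc mX X x = (NN d L : ℂ)⁻¹ * ∑ k, GX X x k := h3
      _ = _ := by
        congr 1
        exact Finset.sum_congr rfl fun k _ => hG k

theorem cl_shift {d L : ℕ} [NeZero L] {x E τ Y₁ t₀ c₃ C₂ : ℝ} {X : T d L → ℂ}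
    (h : CL x E τ Y₁ t₀ c₃ C₂ X) (t : ℝ) (ht : 0 ≤ t) :
    CL x E (τ + t) Y₁ t₀ c₃ C₂ (fun k => X k - t * Complex.I) := by
  have him : ∀ k, (X k - t * Complex.I).im = (X k).im - t := by
    intro k; simp
  constructor
  · intro k
    have := h.near k
    have e : X k - t * Complex.I - ((adj k : ℂ) - E - ((τ + t : ℝ) : ℂ) * Complex.I) =
        X k - ((adj k : ℂ) - E - τ * Complex.I) := by push_cast; ring
    rw [e]; exact this
  · intro k
    rw [him]
    have := h.im k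
    linarith
  · intro k
    rw [him]
    have := h.dis k
    linarith
  · rcases h.shell with h1 | h1
    · left; linarith
    · right
      intro k hk
      rw [him]
      have := h1 k hk
      linarith

theorem log_bd {x κ C : ℝ} (hx : 0 < x) (hκ : 0 < κ) (hκ' : κ < 1 / 21) (hC : 0 < C)
    (h1 : 0 ≤ Real.log (1 / x)) (h : |Real.log C| ≤ Real.log (1 / x)) :
    Real.log (1 / (C * x ^ (2 + 2 * κ))) ≤ 4 * Real.log (1 / x) := by
  have e1 : Real.log (1 / (C * x ^ (2 + 2 * κ))) =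
      -Real.log C + (2 + 2 * κ) * Real.log (1 / x) := by
    rw [one_div, Real.log_inv, Real.log_mul hC.ne' (Real.rpow_pos_of_pos hx _).ne',
      Real.log_rpow hx, one_div, Real.log_inv]
    ring
  rw [e1]
  have := neg_abs_le (Real.log C)
  nlinarith

theorem t_TOR : S_BND → S_IBP → S_SC → S_TOR := by
  intro hBND hIBP hSC d hd a ha had
  obtain ⟨C₀, c₀, C₂, hC₀, hc₀, hC₂, hsc⟩ := hSC d hd a ha had
  refine ⟨C₀ + 1, min (c₀ / 2) 1, C₂, by linarith, lt_min (by linarith) one_pos,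
    (min_le_right _ _).trans (by linarith), hC₂, ?_⟩
  intro κ hκ hκ' C_Y c_t c₃ hCY hct hc₃
  obtain ⟨ε₀, hε₀, hsc⟩ := hsc c₃ hc₃
  have hK : 0 < 2 + 8 * C3 := by unfold C3; positivity
  set K : ℝ := (2 + 8 * C3) * 4 with hKdef
  have hKp : 0 < K := by positivity
  set ε : ℝ := min (ε₀ / K) (min (1 / (2 * (1 + C₀))) (c₀ / (4 * (1 + C₀)))) with hεdef
  have hε : 0 < ε := by
    rw [hεdef]
    refine lt_min (by positivity) (lt_min (by positivity) (by positivity))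
  have hε1 : K * ε ≤ ε₀ := by
    have : ε ≤ ε₀ / K := min_le_left _ _
    rw [le_div_iff₀ hKp] at this
    linarith
  have hε2 : 2 * ε * (1 + C₀) ≤ 1 := by
    have : ε ≤ 1 / (2 * (1 + C₀)) := (min_le_right _ _).trans (min_le_left _ _)
    rw [le_div_iff₀ (by positivity)] at this
    linarith
  have hε3 : 2 * ε * (1 + C₀) ≤ c₀ / 2 := by
    have : ε ≤ c₀ / (4 * (1 + C₀)) := (min_le_right _ _).trans (min_le_right _ _)
    rw [le_div_iff₀ (by positivity)] at this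
    linarith
  have hε4 : ε ≤ 1 / 4 := by nlinarith
  obtain ⟨s₁, hs₁, hs₁', hbnd⟩ := hBND d hd κ hκ hκ' C_Y c_t ε hCY hct hε
  set s₂ : ℝ := (ε₀ / C_Y) ^ (1 / (2 * κ)) with hs₂
  have hs₂p : 0 < s₂ := Real.rpow_pos_of_pos (by positivity) _
  set s₃ : ℝ := Real.exp (-(1 + |Real.log C_Y|)) with hs₃
  have hs₃p : 0 < s₃ := Real.exp_pos _
  refine ⟨min s₁ (min ε₀ (min s₂ s₃)), lt_min hs₁ (lt_min hε₀ (lt_min hs₂p hs₃p)),
    (min_le_left _ _).trans_lt hs₁', ?_⟩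
  intro x hx hxs
  have hx1 : x ≤ s₁ := hxs.trans (min_le_left _ _)
  have hx2 : x ≤ ε₀ := hxs.trans ((min_le_right _ _).trans (min_le_left _ _))
  have hx3 : x ≤ s₂ :=
    hxs.trans ((min_le_right _ _).trans ((min_le_right _ _).trans (min_le_left _ _)))
  have hx4 : x ≤ s₃ :=
    hxs.trans ((min_le_right _ _).trans ((min_le_right _ _).trans (min_le_right _ _)))
  have hxlt1 : x < 1 := hx1.trans_lt hs₁'
  have habs : |x| = x := abs_of_pos hx
  have hlog : 1 + |Real.log C_Y| ≤ Real.log (1 / x) := by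
    rw [one_div, Real.log_inv]
    have := Real.log_le_log hx hx4
    rw [hs₃, Real.log_exp] at this
    linarith
  have hlog1 : 1 ≤ Real.log (1 / x) := by
    have := abs_nonneg (Real.log C_Y)
    linarith
  set Y₁ : ℝ := C_Y * x ^ (2 + 2 * κ) with hY₁
  have hY₁p : 0 < Y₁ := mul_pos hCY (Real.rpow_pos_of_pos hx _)
  have hY₁le : Y₁ ≤ ε₀ * x ^ 2 := by
    have h1 : x ^ (2 * κ) ≤ ε₀ / C_Y := by
      have h2 := Real.rpow_le_rpow hx.le hx3 (by positivity : 0 ≤ 2 * κ)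
      rw [hs₂, ← Real.rpow_mul (by positivity), one_div,
        inv_mul_cancel₀ (by positivity : (2 * κ) ≠ 0), Real.rpow_one] at h2
      exact h2
    rw [le_div_iff₀ hCY] at h1
    rw [hY₁, Real.rpow_add hx, Real.rpow_two]
    nlinarith [sq_nonneg x, mul_le_mul_of_nonneg_left h1 (sq_nonneg x)]
  have hgg : gg Y₁ ≤ K * Real.log (1 / x) := by
    unfold gg
    have := log_bd hx hκ hκ' hCY (by linarith) (by linarith : |Real.log C_Y| ≤ Real.log (1 / x))
    rw [hKdef]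
    have h2 := mul_le_mul_of_nonneg_left this hK.le
    rw [← hY₁] at h2
    linarith
  obtain ⟨ℓ, hℓ, hbnd⟩ := hbnd x (by rw [habs]; exact hx) (by rw [habs]; exact hx1)
  obtain ⟨L₀, hsc⟩ := hsc x Y₁ hx hx2 hY₁p hY₁le
  refine ⟨ℓ, max 2 L₀, hℓ, ?_⟩
  intro n L _ hn hL E τ X hE hτ hτ1 hX
  have hn2 : 2 ≤ n := (le_max_left _ _).trans hn
  have hnL : L₀ ≤ L := by
    have h1 : L₀ ≤ n := (le_max_right _ _).trans hn
    rw [hL]
    nlinarith
  have hE2 : |E| ≤ 2 * d := by linarith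
  rw [habs] at hbnd
  -- a uniform dissipation
  obtain ⟨k₀, hk₀⟩ := Finite.exists_min (fun k : T d L => -(X k).im)
  have hcp : 0 < -(X k₀).im := by
    refine lt_of_lt_of_le ?_ (hX.dis k₀)
    have : 0 < x ^ (2 + 2 * κ) := Real.rpow_pos_of_pos hx _
    positivity
  have hdis : ∀ t : ℝ, 0 ≤ t → Dis (-(X k₀).im) (fun k => X k - t * Complex.I) := by
    intro t ht k
    have h1 := hk₀ k
    simp only [Complex.sub_im, Complex.mul_im, Complex.ofReal_re, Complex.I_im, mul_one,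
      Complex.ofReal_im, Complex.I_re, mul_zero, add_zero, neg_neg]
    linarith
  -- the bound
  have hB : ∀ t : ℝ, 0 ≤ t → ∀ k, VX (fun k => X k - t * Complex.I) x *
      NX (fun k => X k - t * Complex.I) x k * (‖X k - t * Complex.I‖ ^ 2 +
      (x ^ 2 * Real.log (1 / x)) ^ 2) ≤ ε ^ 2 := by
    intro t ht k
    have hcl := cl_shift hX t ht
    exact hbnd n L hn2 hL E (τ + t) (fun k => X k - t * Complex.I) hE2 hcl.near hcl.dis k
  -- the dichotomy
  have hA : ∀ t : ℝ, 0 ≤ t → t ≤ 1 → ‖mX (fun k => X k - t * Complex.I) x‖ ≤ 2 * C₀ →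
      ‖mX (fun k => X k - t * Complex.I) x‖ ≤ C₀ ∧
        c₀ ≤ (mX (fun k => X k - t * Complex.I) x).im := by
    intro t ht ht1 hm
    have hcl := cl_shift hX t ht
    obtain ⟨r, -, -, hr2, -, hr4⟩ := eqn hIBP (fun k => X k - t * Complex.I) x _ ε hx hxlt1.le hcp
      (hdis t ht) hε.le (hB t ht)
    obtain ⟨-, -, -, him, -, -⟩ := hIBP d L (fun k => X k - t * Complex.I) _ x hcp (hdis t ht)
    refine hsc L hnL E (τ + t) hE (by linarith) (by linarith) (fun k => X k - t * Complex.I)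
      hcl.near hcl.im hcl.shell _ r him hm ?_ hr4
    intro k
    calc ‖r k‖ * gg Y₁ ≤ ‖r k‖ * (K * Real.log (1 / x)) :=
          mul_le_mul_of_nonneg_left hgg (norm_nonneg _)
      _ = K * (‖r k‖ * Real.log (1 / x)) := by ring
      _ ≤ K * ε := mul_le_mul_of_nonneg_left (hr2 k) hKp.le
      _ ≤ ε₀ := hε1
  -- t = 1
  have h1 : ‖mX (fun k => X k - (1 : ℝ) * Complex.I) x‖ ≤ 1 := by
    have hd1 : Dis 1 (fun k => X k - (1 : ℝ) * Complex.I) := by
      intro k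
      have := hX.im k
      simp only [Complex.sub_im, Complex.mul_im, Complex.ofReal_re, Complex.I_im, mul_one,
        Complex.ofReal_im, Complex.I_re, mul_zero, add_zero]
      linarith
    obtain ⟨-, -, -, -, h5, -⟩ := hIBP d L (fun k => X k - (1 : ℝ) * Complex.I) 1 x one_pos hd1
    simpa using h5
  have h0X : (fun k => X k - (0 : ℝ) * Complex.I) = X := by
    funext k; simp
  -- continuity
  have hcont : ContinuousOn (fun t : ℝ => ‖mX (fun k => X k - t * Complex.I) x‖)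
      (Set.Icc 0 1) := by
    have hdX : Dis (-(X k₀).im) X := by
      have := hdis 0 le_rfl
      rwa [h0X] at this
    obtain ⟨-, -, -, -, -, h6⟩ := hIBP d L X _ x hcp hdX
    have hLip : LipschitzOnWith (Real.toNNReal (((-(X k₀).im) ^ 2)⁻¹))
        (fun t : ℝ => ‖mX (fun k => X k - t * Complex.I) x‖) (Set.Icc 0 1) := by
      apply LipschitzOnWith.of_dist_le_mul
      intro s hs t ht
      rw [Real.coe_toNNReal _ (by positivity), Real.dist_eq, Real.dist_eq]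
      refine (abs_norm_sub_norm_le _ _).trans ?_
      have := h6 s t hs.1 ht.1
      linarith [mul_comm (|s - t|) ((-(X k₀).im) ^ 2)⁻¹]
    exact hLip.continuousOn
  have h0 : ‖mX (fun k => X k - (0 : ℝ) * Complex.I) x‖ ≤ 2 * C₀ := by
    by_contra hcon
    push Not at hcon
    have hiv := intermediate_value_Icc' (zero_le_one' ℝ) hcont
    have hmem : 3 / 2 * C₀ ∈ Set.Icc ‖mX (fun k => X k - (1 : ℝ) * Complex.I) x‖
        ‖mX (fun k => X k - (0 : ℝ) * Complex.I) x‖ := ⟨by linarith, by linarith⟩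
    obtain ⟨t, ht, hft⟩ := hiv hmem
    simp only at hft
    have := (hA t ht.1 ht.2 (by rw [hft]; linarith)).1
    rw [hft] at this
    linarith
  obtain ⟨hm1, hm2⟩ := hA 0 le_rfl zero_le_one h0
  have hBX := hB 0 le_rfl
  have hdX := hdis 0 le_rfl
  simp only [h0X] at hm1 hm2 hdX
  have hBX' : ∀ k, VX X x * NX X x k * (‖X k‖ ^ 2 + (x ^ 2 * Real.log (1 / x)) ^ 2) ≤ ε ^ 2 := by
    intro k
    have := hBX k
    rw [h0X] at this
    simpa using this
  obtain ⟨r, hG, hr1, hr2, hne, -⟩ := eqn hIBP X x _ ε hx hxlt1.le hcp hdX hε.le hBX'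
  intro k
  set m := mX X x with hmdef
  have hrk : ‖r k‖ ≤ ε := by
    have := hr2 k
    nlinarith [norm_nonneg (r k)]
  have hr14 : ‖r k‖ ≤ 1 / 4 := hrk.trans hε4
  have hN : 1 / 2 ≤ ‖1 + r k‖ := by
    have := norm_sub_norm_le (1 : ℂ) (-r k)
    rw [sub_neg_eq_add, norm_neg, norm_one] at this
    linarith
  have hN0 : 1 + r k ≠ 0 := by
    intro h
    rw [h, norm_zero] at hN
    linarith
  have hx2 : 0 < x ^ 2 := by positivity
  have hx2' : x ^ 2 ≤ 1 := by nlinarith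
  have hxm : ‖(x : ℂ) ^ 2 * m‖ = x ^ 2 * ‖m‖ := by
    rw [norm_mul, norm_pow, Complex.norm_real, Real.norm_eq_abs, habs]
  have hD : ‖X k - x ^ 2 * m‖ ≤ ‖X k‖ + x ^ 2 * C₀ := by
    refine (norm_sub_le _ _).trans ?_
    rw [hxm]
    have := mul_le_mul_of_nonneg_left hm1 hx2.le
    linarith
  have hDp : 0 < ‖X k - x ^ 2 * m‖ := norm_pos_iff.2 (hne k)
  have e1 : 1 / GX X x k - X k = -(x ^ 2 * m) - (X k - x ^ 2 * m) * r k / (1 + r k) := by
    rw [hG k]
    have := hne k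
    field_simp
    ring
  have herr : ‖(X k - x ^ 2 * m) * r k / (1 + r k)‖ ≤ 2 * ε * (1 + C₀) * x ^ 2 := by
    rw [norm_div, norm_mul, div_le_iff₀ (by linarith)]
    have h7 : ‖X k - x ^ 2 * m‖ * ‖r k‖ ≤ x ^ 2 * ε + x ^ 2 * C₀ * ε := by
      calc ‖X k - x ^ 2 * m‖ * ‖r k‖ ≤ (‖X k‖ + x ^ 2 * C₀) * ‖r k‖ :=
            mul_le_mul_of_nonneg_right hD (norm_nonneg _)
        _ = ‖r k‖ * ‖X k‖ + x ^ 2 * C₀ * ‖r k‖ := by ring
        _ ≤ x ^ 2 * ε + x ^ 2 * C₀ * ε := by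
            have := mul_le_mul_of_nonneg_left hrk (by positivity : 0 ≤ x ^ 2 * C₀)
            linarith [hr1 k]
    have h8 : 2 * ε * (1 + C₀) * x ^ 2 * (1 / 2) ≤ 2 * ε * (1 + C₀) * x ^ 2 * ‖1 + r k‖ :=
      mul_le_mul_of_nonneg_left hN (by positivity)
    linarith
  refine ⟨?_, ?_, ?_⟩
  · rw [hG k, norm_div]
    rw [le_div_iff₀ hDp, inv_mul_le_iff₀ (by positivity)]
    have h9 : ‖X k - x ^ 2 * m‖ ≤ ‖X k‖ + (C₀ + 1) := by
      refine hD.trans ?_
      nlinarith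
    have h10 : 0 ≤ ‖X k‖ + (C₀ + 1) := by positivity
    nlinarith
  · rw [e1]
    refine (norm_sub_le _ _).trans ?_
    rw [norm_neg, hxm]
    have h11 := mul_le_mul_of_nonneg_left hm1 hx2.le
    have h12 := mul_le_mul_of_nonneg_right hε2 hx2.le
    linarith
  · rw [e1, Complex.sub_im, Complex.neg_im]
    have h13 : ((x : ℂ) ^ 2 * m).im = x ^ 2 * m.im := by
      rw [← Complex.ofReal_pow, Complex.im_ofReal_mul]
    rw [h13]
    have h14 := Complex.abs_im_le_norm ((X k - x ^ 2 * m) * r k / (1 + r k))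
    have h15 := (abs_le.1 (h14.trans herr)).1
    have h16 := mul_le_mul_of_nonneg_right hε3 hx2.le
    have h17 := mul_le_mul_of_nonneg_left hm2 hx2.le
    have h18 : min (c₀ / 2) 1 * x ^ 2 ≤ c₀ / 2 * x ^ 2 :=
      mul_le_mul_of_nonneg_right (min_le_left _ _) hx2.le
    linarith

end

end Pool.Agent.Run7.h524.VI
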